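import Mathlib

namespace Pool.Agent.H.MP_34e3ac_co

/-- `L m n`: partitions with at most `m` parts, each at most `n` -/
abbrev L (m n : ℕ) : Type := {lam : Fin m → Fin (n + 1) // Antitone lam}

/-- `mu` arises from `lam` by adding one box -/
def AddBox {m n : ℕ} (lam mu : L m n) : Prop :=
  ∃ i, (mu.1 i : ℕ) = (lam.1 i : ℕ) + 1 ∧ ∀ j, j ≠ i → mu.1 j = lam.1 j

open Classical in
/-- adjacency matrix of the Hasse diagram of `L m n` -/
noncomputable def A (m n : ℕ) : Matrix (L m n) (L m n) ℝ :=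
  fun lam mu => if AddBox lam mu ∨ AddBox mu lam then 1 else 0

end Pool.Agent.H.MP_34e3ac_co
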