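import Mathlib

namespace Pool.Agent.H.MP_34e3ac_co
open Finset Polynomial

/-- eigenvalue of the path -/
noncomputable def dd (z : ℂ) (k : ℕ) : ℂ := z ^ k + z⁻¹ ^ k

lemma bch {K ι : Type*} [Field K] (I : Finset ι) (y c : ι → K)
    (h : ∀ s < I.card, ∑ i ∈ I, c i * y i ^ s = 0) (i0 : ι) (hi0 : i0 ∈ I)
    (hy : ∀ i ∈ I, i ≠ i0 → y i ≠ y i0) : c i0 = 0 := by
  classical
  set g : K[X] := ∏ i ∈ I.erase i0, (X - C (y i)) with hg
  have hdeg : g.natDegree < I.card := by
    have h1 : g.natDegree = (I.erase i0).card := by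
      rw [hg, natDegree_prod_of_monic _ _ (fun i _ => monic_X_sub_C _)]
      simp
    rw [h1, card_erase_of_mem hi0]
    have := card_pos.mpr ⟨i0, hi0⟩
    omega
  have h1 : ∑ i ∈ I, c i * g.eval (y i) = 0 := by
    simp_rw [eval_eq_sum_range' hdeg, Finset.mul_sum]
    rw [Finset.sum_comm]
    apply Finset.sum_eq_zero
    intro s hs
    have := h s (mem_range.mp hs)
    calc ∑ i ∈ I, c i * (g.coeff s * y i ^ s) = g.coeff s * ∑ i ∈ I, c i * y i ^ s := by
          rw [Finset.mul_sum]; apply Finset.sum_congr rfl; intro i _; ring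
      _ = 0 := by rw [this, mul_zero]
  rw [Finset.sum_eq_single i0] at h1
  · have h2 : g.eval (y i0) ≠ 0 := by
      rw [hg, eval_prod]
      apply Finset.prod_ne_zero_iff.mpr
      intro i hi
      simp only [eval_sub, eval_X, eval_C]
      exact sub_ne_zero.mpr (hy i (mem_of_mem_erase hi) (ne_of_mem_erase hi)).symm
    exact (mul_eq_zero.mp h1).resolve_right h2
  · intro i hi hne
    rw [hg, eval_prod, Finset.prod_eq_zero (i := i) (mem_erase.mpr ⟨hne, hi⟩) (by simp), mul_zero]
  · intro h; exact absurd hi0 h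

lemma inv_pow_eq {z : ℂ} {M : ℕ} (hM : 0 < M) (hz : IsPrimitiveRoot z (2 * M)) {j : ℕ}
    (hj : j ≤ 2 * M) : z⁻¹ ^ j = z ^ (2 * M - j) := by
  have hz0 : z ≠ 0 := hz.ne_zero (by omega)
  have h1 : z ^ (2 * M - j) * z ^ j = 1 := by
    rw [← pow_add, Nat.sub_add_cancel hj, hz.pow_eq_one]
  rw [inv_pow]
  exact (eq_inv_of_mul_eq_one_left h1).symm

lemma pow_M {z : ℂ} {M : ℕ} (hM : 0 < M) (hz : IsPrimitiveRoot z (2 * M)) : z ^ M = -1 := by
  have h := hz.pow (by omega) (show 2 * M = M * 2 by ring)
  exact h.eq_neg_one_of_two_right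

lemma dd_refl {z : ℂ} {M : ℕ} (hM : 0 < M) (hz : IsPrimitiveRoot z (2 * M)) {j : ℕ}
    (hj : j ≤ M) : dd z (M - j) = - dd z j := by
  have h1 := pow_M hM hz
  unfold dd
  rw [inv_pow_eq hM hz (by omega : M - j ≤ 2 * M), inv_pow_eq hM hz (by omega : j ≤ 2 * M),
    show 2 * M - (M - j) = M + j by omega, show 2 * M - j = M + (M - j) by omega, pow_add, pow_add,
    h1]
  ring

lemma sum_sym {z : ℂ} {M : ℕ} (hM : 0 < M) (hz : IsPrimitiveRoot z (2 * M)) (S : Finset ℕ)
    (hS : ∀ j ∈ S, j ≤ M) (hsym : ∀ j ∈ S, M - j ∈ S) : ∑ j ∈ S, dd z j = 0 := by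
  have h1 : ∑ j ∈ S, dd z j = ∑ j ∈ S, dd z (M - j) := by
    apply Finset.sum_nbij' (fun j => M - j) (fun j => M - j)
    · intro a ha; exact hsym a ha
    · intro a ha; exact hsym a ha
    · intro a ha; have := hS a ha; omega
    · intro a ha; have := hS a ha; omega
    · intro a ha; have := hS a ha
      rw [show M - (M - a) = a by omega]
  have h2 : ∑ j ∈ S, dd z (M - j) = - ∑ j ∈ S, dd z j := by
    rw [← Finset.sum_neg_distrib]
    exact Finset.sum_congr rfl (fun j hj => dd_refl hM hz (hS j hj))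
  have h3 : (2 : ℂ) * ∑ j ∈ S, dd z j = 0 := by linear_combination h1 + h2
  simpa using h3

/-- no short vanishing sum of odd size -/
lemma no_short {z : ℂ} {M : ℕ} (hM : Odd M) (hz : IsPrimitiveRoot z (2 * M)) (S : Finset ℕ)
    (hS : ∀ j ∈ S, 1 ≤ j ∧ j < M) (hodd : Odd S.card) (hlt : S.card < M.minFac) :
    ∑ j ∈ S, dd z j ≠ 0 := by
  classical
  intro h0
  have hM0 : 0 < M := hM.pos
  have h2M : ¬ 2 ∣ M := by
    rcases hM with ⟨r, hr⟩; omega
  set f : ℤ[X] := ∑ j ∈ S, (X ^ j + X ^ (2 * M - j)) with hf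
  have hfz : aeval z f = 0 := by
    rw [hf, map_sum, ← h0]
    apply Finset.sum_congr rfl
    intro j hj
    have := hS j hj
    simp only [map_add, map_pow, aeval_X, dd]
    rw [inv_pow_eq hM0 hz (by omega)]
  have hdvd : cyclotomic (2 * M) ℤ ∣ f := by
    rw [cyclotomic_eq_minpoly hz (by omega)]
    exact minpoly.isIntegrallyClosed_dvd (hz.isIntegral (by omega)) hfz
  haveI : Fact (Nat.Prime 2) := ⟨Nat.prime_two⟩
  haveI : NeZero (M : ZMod 2) := ⟨by
    rw [Ne, ZMod.natCast_eq_zero_iff]; exact h2M⟩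
  set K := AlgebraicClosure (ZMod 2)
  obtain ⟨y, hy⟩ := HasEnoughRootsOfUnity.exists_primitiveRoot K M
  have hy0 : y ≠ 0 := hy.ne_zero (by omega)
  have two0 : (2 : K) = 0 := by
    have := CharP.cast_eq_zero K 2
    exact_mod_cast this
  have hroot : ∀ x : K, IsPrimitiveRoot x M → ∑ j ∈ S, (x ^ j + x ^ (M - j)) = 0 := by
    intro x hx
    obtain ⟨q, hq⟩ := hdvd
    have h1 : aeval x (cyclotomic (2 * M) ℤ) = 0 := by
      rw [aeval_def, ← eval_map, map_cyclotomic, mul_comm,
        cyclotomic_mul_prime_eq_pow_of_not_dvd K h2M]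
      have := hx.isRoot_cyclotomic hM0
      simpa using this
    have h2 : aeval x f = 0 := by rw [hq, map_mul, h1, zero_mul]
    rw [hf, map_sum] at h2
    rw [← h2]
    apply Finset.sum_congr rfl
    intro j hj
    have := hS j hj
    simp only [map_add, map_pow, aeval_X]
    rw [show 2 * M - j = M + (M - j) by omega, pow_add, hx.pow_eq_one, one_mul]
  have hp : M.minFac ≤ M := Nat.minFac_le hM0
  have hall : ∀ s < 2 * S.card, ∑ j ∈ S, ((y ^ (s + M - S.card)) ^ j +
      (y ^ (s + M - S.card)) ^ (M - j)) = 0 := by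
    intro s hs
    rcases lt_trichotomy s S.card with h | h | h
    · apply hroot
      apply hy.pow_of_coprime
      have h1 : Nat.Coprime M (S.card - s) := Nat.coprime_of_lt_minFac (by omega) (by omega)
      have h2 : s + M - S.card = M - (S.card - s) := by omega
      rw [h2]
      exact (Nat.coprime_self_sub_left (by omega : S.card - s ≤ M)).mpr h1.symm
    · rw [show s + M - S.card = M by omega, hy.pow_eq_one]
      apply Finset.sum_eq_zero
      intro j _
      rw [one_pow, one_pow, one_add_one_eq_two, two0]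
    · apply hroot
      apply hy.pow_of_coprime
      have h1 : Nat.Coprime M (s - S.card) := Nat.coprime_of_lt_minFac (by omega) (by omega)
      rw [show s + M - S.card = (s - S.card) + M by omega]
      exact (Nat.coprime_add_self_left).mpr h1.symm
  obtain ⟨j0, hj0, hj0'⟩ : ∃ j0 ∈ S, M - j0 ∉ S := by
    by_contra hcon
    push_neg at hcon
    have h1 : ∑ j ∈ S, (1 : ZMod 2) = 0 := by
      apply Finset.sum_involution (fun a _ => M - a)
      · intro a _; rfl
      · intro a ha _ h
        have := hS a ha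
        omega
      · intro a ha; exact hcon a ha
      · intro a ha; have := hS a ha; omega
    simp only [sum_const, nsmul_eq_mul, mul_one] at h1
    rw [ZMod.natCast_eq_zero_iff] at h1
    rcases hodd with ⟨r, hr⟩
    omega
  set e : ℕ × Bool → ℕ := fun i => if i.2 then i.1 else M - i.1 with he
  have key := bch (S ×ˢ (univ : Finset Bool)) (fun i => y ^ e i)
    (fun i => (y ^ e i) ^ (M - S.card)) (by
      intro s hs
      rw [card_product, card_univ, Fintype.card_bool] at hs
      rw [← hall s (by omega), Finset.sum_product]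
      apply Finset.sum_congr rfl
      intro j _
      simp only [Fintype.univ_bool, he]
      rw [Finset.sum_pair (by simp)]
      simp only [if_true, Bool.false_eq_true, if_false, ← pow_add, ← pow_mul]
      rw [show s + M - S.card = M - S.card + s by omega]
      congr 2 <;> ring) (j0, true) (by simp [hj0]) (by
      rintro ⟨j, b⟩ hi hne h
      have hj : j ∈ S := (mem_product.mp hi).1
      have h1 := hS j hj
      have h2 := hS j0 hj0
      cases b
      · simp only [he, Bool.false_eq_true, if_false, if_true] at h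
        have := hy.pow_inj (by omega) (by omega) h
        apply hj0'
        rw [← this, show M - (M - j) = j by omega]
        exact hj
      · simp only [he, if_true] at h
        have := hy.pow_inj (by omega) (by omega) h
        exact hne (by rw [this]))
  exact pow_ne_zero _ (pow_ne_zero _ hy0) key

/-- an `m`-subset of `[1, M-1]` with vanishing eigenvalue sum -/
def Van (z : ℂ) (M m : ℕ) : Prop :=
  ∃ S : Finset ℕ, (∀ j ∈ S, 1 ≤ j ∧ j < M) ∧ S.card = m ∧ ∑ j ∈ S, dd z j = 0

lemma van_even {z : ℂ} {M h : ℕ} (hh : 2 * h < M) (hz : IsPrimitiveRoot z (2 * M)) :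
    Van z M (2 * h) := by
  refine ⟨Icc 1 h ∪ Icc (M - h) (M - 1), ?_, ?_, ?_⟩
  · intro j hj
    simp only [mem_union, mem_Icc] at hj
    omega
  · rw [card_union_of_disjoint]
    · simp only [Nat.card_Icc]; omega
    · rw [Finset.disjoint_left]
      intro j h1 h2
      simp only [mem_Icc] at h1 h2
      omega
  · apply sum_sym (by omega) hz
    · intro j hj
      simp only [mem_union, mem_Icc] at hj
      omega
    · intro j hj
      simp only [mem_union, mem_Icc] at hj ⊢
      omega

lemma van_mid {z : ℂ} {M h c : ℕ} (hc : M = 2 * c) (hh : h < c) (hz : IsPrimitiveRoot z (2 * M)) :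
    Van z M (2 * h + 1) := by
  refine ⟨Icc (c - h) (c + h), ?_, ?_, ?_⟩
  · intro j hj
    simp only [mem_Icc] at hj
    omega
  · simp only [Nat.card_Icc]; omega
  · apply sum_sym (by omega) hz
    · intro j hj
      simp only [mem_Icc] at hj
      omega
    · intro j hj
      simp only [mem_Icc] at hj ⊢
      omega

lemma dd_neg {z : ℂ} {M : ℕ} (hM : 0 < M) (hz : IsPrimitiveRoot z (2 * M)) {j : ℕ}
    (hj : j ≤ 2 * M) : dd z (2 * M - j) = dd z j := by
  unfold dd
  rw [inv_pow_eq hM hz hj, inv_pow_eq hM hz (by omega : 2 * M - j ≤ 2 * M),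
    show 2 * M - (2 * M - j) = j by omega, add_comm]

lemma van_gon {z : ℂ} {M p r t : ℕ} (hM : M = p * r) (hp : 1 < p) (hr : 1 < r) (hodd : Odd M)
    (ht : 2 * p + 2 * t + 1 ≤ M) (hz : IsPrimitiveRoot z (2 * M)) : Van z M (p + 2 * t) := by
  classical
  have hM0 : 0 < M := hodd.pos
  obtain ⟨c, hc⟩ := hodd
  have key : ∀ k l : ℕ, r * k + 1 ≠ r * l := by
    intro k l h
    have h1 : r ∣ r * k + 1 := h ▸ Dvd.intro _ rfl
    have h2 : r ∣ 1 := (Nat.dvd_add_right (Dvd.intro _ rfl)).mp h1
    have := Nat.le_of_dvd one_pos h2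
    omega
  set fold : ℕ → ℕ := fun k => if 2 * (r * k) + 1 < M then 2 * (r * k) + 1
    else 2 * M - (2 * (r * k) + 1) with hfold
  have hb : ∀ k < p, r * k + r ≤ M := by
    intro k hk
    rw [hM, mul_comm p r, ← Nat.mul_succ]
    exact Nat.mul_le_mul_left _ hk
  have hne : ∀ k, 2 * (r * k) + 1 ≠ M := by
    intro k h
    apply key (2 * k) p
    rw [mul_comm r p, ← hM, ← h]; ring
  have hP : ∀ k < p, 1 ≤ fold k ∧ fold k < M ∧ fold k % 2 = 1 := by
    intro k hk
    have := hb k hk
    have := hne k
    simp only [hfold]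
    split_ifs <;> omega
  have hinj : Set.InjOn fold (range p : Finset ℕ) := by
    intro k hk l hl h
    have h1 := hb k (by simpa using hk)
    have h2 := hb l (by simpa using hl)
    have h3 := key (k + l) p
    rw [mul_comm r p, ← hM, mul_add] at h3
    simp only [hfold] at h
    have h4 : r * k = r * l := by
      split_ifs at h <;> omega
    exact Nat.eq_of_mul_eq_mul_left (by omega) h4
  have hsumP : ∑ j ∈ (range p).image fold, dd z j = 0 := by
    rw [Finset.sum_image hinj]
    have h1 : ∀ k ∈ range p, dd z (fold k) = z * (z ^ (2 * r)) ^ k + z⁻¹ * (z⁻¹ ^ (2 * r)) ^ k := by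
      intro k hk
      have := hb k (mem_range.mp hk)
      have h2 : dd z (fold k) = dd z (2 * (r * k) + 1) := by
        simp only [hfold]
        split_ifs
        · rfl
        · exact dd_neg hM0 hz (by omega)
      rw [h2, dd, ← pow_mul, ← pow_mul, pow_succ, pow_succ, mul_assoc]
      ring
    rw [Finset.sum_congr rfl h1, Finset.sum_add_distrib, ← Finset.mul_sum, ← Finset.mul_sum]
    have h3 : IsPrimitiveRoot (z ^ (2 * r)) p := hz.pow (by omega) (by rw [hM]; ring)
    have h4 : IsPrimitiveRoot (z⁻¹ ^ (2 * r)) p := hz.inv.pow (by omega) (by rw [hM]; ring)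
    rw [h3.geom_sum_eq_zero hp, h4.geom_sum_eq_zero hp]
    simp
  set P := (range p).image fold with hPdef
  have hPc : P.card = p := by rw [hPdef, card_image_of_injOn hinj, card_range]
  have hPm : ∀ j ∈ P, 1 ≤ j ∧ j < M ∧ j % 2 = 1 := by
    intro j hj
    obtain ⟨k, hk, rfl⟩ := mem_image.mp hj
    exact hP k (mem_range.mp hk)
  set O := (range c).image (fun i => 2 * i + 1) with hO
  have hOc : O.card = c := by
    rw [hO, card_image_of_injective _ (fun a b h => by simpa using h), card_range]
  have hOm : ∀ j ∈ O, 1 ≤ j ∧ j < M ∧ j % 2 = 1 := by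
    intro j hj
    obtain ⟨k, hk, rfl⟩ := mem_image.mp hj
    have := mem_range.mp hk
    omega
  have hT : t ≤ (O \ P).card := by
    have := le_card_sdiff P O
    omega
  obtain ⟨T, hTs, hTc⟩ := Finset.exists_subset_card_eq hT
  have hTm : ∀ j ∈ T, (1 ≤ j ∧ j < M ∧ j % 2 = 1) ∧ j ∉ P := by
    intro j hj
    have := mem_sdiff.mp (hTs hj)
    exact ⟨hOm j this.1, this.2⟩
  have hT'm : ∀ j ∈ T.image (fun j => M - j), 1 ≤ j ∧ j < M ∧ j % 2 = 0 := by
    intro j hj
    obtain ⟨k, hk, rfl⟩ := mem_image.mp hj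
    have := hTm k hk
    omega
  have hd1 : Disjoint T (T.image (fun j => M - j)) := by
    rw [Finset.disjoint_left]
    intro j h1 h2
    have := hTm j h1
    have := hT'm j h2
    omega
  have hd2 : Disjoint P (T ∪ T.image (fun j => M - j)) := by
    rw [Finset.disjoint_left]
    intro j h1 h2
    rcases mem_union.mp h2 with h2 | h2
    · exact (hTm j h2).2 h1
    · have := hT'm j h2
      have := hPm j h1
      omega
  refine ⟨P ∪ (T ∪ T.image (fun j => M - j)), ?_, ?_, ?_⟩
  · intro j hj
    rcases mem_union.mp hj with h | h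
    · have := hPm j h; omega
    · rcases mem_union.mp h with h | h
      · have := hTm j h; omega
      · have := hT'm j h; omega
  · rw [card_union_of_disjoint hd2, card_union_of_disjoint hd1, hPc, card_image_of_injOn, hTc]
    · ring
    · intro a ha b hb h
      have := hTm a ha
      have := hTm b hb
      simp only at h
      omega
  · rw [Finset.sum_union hd2, hsumP, zero_add]
    apply sum_sym hM0 hz
    · intro j h
      rcases mem_union.mp h with h | h
      · have := hTm j h; omega
      · have := hT'm j h; omega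
    · intro j h
      rcases mem_union.mp h with h | h
      · exact mem_union_right _ (mem_image_of_mem _ h)
      · obtain ⟨k, hk, rfl⟩ := mem_image.mp h
        have := hTm k hk
        apply mem_union_left
        rw [show M - (M - k) = k by omega]
        exact hk

lemma van_compl {z : ℂ} {m n : ℕ} (hz : IsPrimitiveRoot z (2 * (m + n + 1)))
    (h : Van z (m + n + 1) m) : Van z (m + n + 1) n := by
  obtain ⟨S, h1, h2, h3⟩ := h
  have hsub : S ⊆ Icc 1 (m + n) := by
    intro j hj
    have := h1 j hj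
    simp only [mem_Icc]; omega
  refine ⟨Icc 1 (m + n) \ S, ?_, ?_, ?_⟩
  · intro j hj
    have := (mem_sdiff.mp hj).1
    simp only [mem_Icc] at this; omega
  · rw [card_sdiff_of_subset hsub, Nat.card_Icc]; omega
  · have h4 : ∑ j ∈ Icc 1 (m + n), dd z j = 0 := by
      apply sum_sym (by omega) hz
      · intro j hj; simp only [mem_Icc] at hj; omega
      · intro j hj; simp only [mem_Icc] at hj ⊢; omega
    rw [← Finset.sum_sdiff hsub, h3, add_zero] at h4
    exact h4

theorem van_iff {z : ℂ} {m n : ℕ} (hz : IsPrimitiveRoot z (2 * (m + n + 1))) :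
    ¬ Van z (m + n + 1) m ↔ Odd m ∧ Odd n ∧ min m n < (m + n + 1).minFac := by
  constructor
  · intro h
    have hm : Odd m := by
      by_contra hm
      obtain ⟨k, hk⟩ := Nat.not_odd_iff_even.mp hm
      apply h
      have := van_even (h := k) (by omega) hz
      rwa [show 2 * k = m by omega] at this
    obtain ⟨a, ha⟩ := hm
    have hn : Odd n := by
      by_contra hn
      obtain ⟨k, hk⟩ := Nat.not_odd_iff_even.mp hn
      apply h
      have := van_mid (h := a) (c := a + k + 1) (by omega) (by omega) hz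
      rwa [← ha] at this
    obtain ⟨b, hb⟩ := hn
    refine ⟨⟨a, ha⟩, ⟨b, hb⟩, ?_⟩
    by_contra hlt
    apply h
    have hpr : (m + n + 1).minFac.Prime := Nat.minFac_prime (by omega)
    obtain ⟨r, hr⟩ := Nat.minFac_dvd (m + n + 1)
    generalize (m + n + 1).minFac = p at *
    have hoddM : Odd (m + n + 1) := ⟨a + b + 1, by omega⟩
    have hpo : Odd p := by
      rw [hr] at hoddM
      exact Nat.Odd.of_mul_left hoddM
    obtain ⟨q, hq⟩ := hpo
    have hr1 : 1 < r := by
      rcases r with _ | _ | r
      · omega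
      · omega
      · omega
    have := van_gon (t := a - q) hr hpr.one_lt hr1 hoddM (by omega) hz
    rwa [show p + 2 * (a - q) = m by omega] at this
  · rintro ⟨hm, hn, hlt⟩ h
    have hoddM : Odd (m + n + 1) := (hm.add_odd hn).add_one
    rcases le_total m n with hmn | hmn
    · obtain ⟨S, h1, h2, h3⟩ := h
      exact no_short hoddM hz S h1 (h2 ▸ hm) (by rw [h2]; omega) h3
    · obtain ⟨S, h1, h2, h3⟩ := van_compl hz h
      exact no_short hoddM hz S h1 (h2 ▸ hn) (by rw [h2]; omega) h3

end Pool.Agent.H.MP_34e3ac_co
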