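import Pool.Agent.H.MP_34e3ac_co.Defs
import Pool.Agent.H.MP_34e3ac_co.Num

namespace Pool.Agent.H.MP_34e3ac_co
open Finset Polynomial Matrix

/-- eigenvector of the path -/
noncomputable def uu (z : ℂ) (k x : ℕ) : ℂ := z ^ (k * x) - z⁻¹ ^ (k * x)

/-- Slater determinant -/
noncomputable def G (z : ℂ) {m : ℕ} (k x : Fin m → ℕ) : ℂ :=
  (Matrix.of fun a b => uu z (k a) (x b)).det

lemma uu_rec {z : ℂ} (hz : z ≠ 0) (k : ℕ) {x : ℕ} (hx : 1 ≤ x) :
    uu z k (x + 1) + uu z k (x - 1) = dd z k * uu z k x := by
  obtain ⟨y, rfl⟩ : ∃ y, x = y + 1 := ⟨x - 1, by omega⟩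
  have h : z ^ k * z⁻¹ ^ k = 1 := by rw [← mul_pow, mul_inv_cancel₀ hz, one_pow]
  simp only [uu, dd, Nat.add_sub_cancel, mul_add, mul_one, pow_add]
  linear_combination (z⁻¹ ^ (k * y) - z ^ (k * y)) * h

lemma G_hop {z : ℂ} (hz : z ≠ 0) {m : ℕ} (k x : Fin m → ℕ) (hx : ∀ b, 1 ≤ x b) :
    ∑ b, (G z k (Function.update x b (x b + 1)) + G z k (Function.update x b (x b - 1))) =
      (∑ a, dd z (k a)) * G z k x := by
  have h1 : ∀ (σ : Equiv.Perm (Fin m)) (b : Fin m) (t : ℕ),
      ∏ i, uu z (k (σ i)) (Function.update x b t i) =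
        uu z (k (σ b)) t * ∏ i ∈ univ.erase b, uu z (k (σ i)) (x i) := by
    intro σ b t
    rw [← Finset.mul_prod_erase _ _ (mem_univ b), Function.update_self]
    congr 1
    apply Finset.prod_congr rfl
    intro i hi
    rw [Function.update_of_ne (ne_of_mem_erase hi)]
  simp only [G, det_apply', of_apply, h1, ← Finset.sum_add_distrib]
  rw [Finset.sum_comm, Finset.mul_sum]
  apply Finset.sum_congr rfl
  intro σ _
  rw [← Equiv.sum_comp σ (fun a => dd z (k a)), Finset.sum_mul]
  apply Finset.sum_congr rfl
  intro b _
  rw [← Finset.mul_prod_erase _ (fun i => uu z (k (σ i)) (x i)) (mem_univ b)]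
  linear_combination ((Equiv.Perm.sign σ : ℤ) : ℂ) * (∏ i ∈ univ.erase b, uu z (k (σ i)) (x i)) *
    uu_rec hz (k (σ b)) (hx b)

/-- particle positions -/
def pos {m n : ℕ} (lam : L m n) (b : Fin m) : ℕ := lam.1 b + (m - b)

lemma pos_ge {m n : ℕ} (lam : L m n) (b : Fin m) : 1 ≤ pos lam b := by
  have := b.2; unfold pos; omega

lemma pos_le {m n : ℕ} (lam : L m n) (b : Fin m) : pos lam b ≤ m + n := by
  have := (lam.1 b).2; unfold pos; omega

lemma pos_anti {m n : ℕ} (lam : L m n) : StrictAnti (pos lam) := by
  intro i j hij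
  have h1 : (lam.1 j : ℕ) ≤ lam.1 i := lam.2 hij.le
  have h2 : (i : ℕ) < j := hij
  have := j.2
  unfold pos; omega

lemma pos_inj {m n : ℕ} {lam mu : L m n} (h : pos lam = pos mu) : lam = mu := by
  apply Subtype.ext
  funext b
  have := congrFun h b
  unfold pos at this
  exact Fin.ext (by omega)

lemma anti_gap {m : ℕ} {x : Fin m → ℕ} (hx : StrictAnti x) (d : ℕ) :
    ∀ i j : Fin m, (j : ℕ) = i + d → x j + d ≤ x i := by
  induction d with
  | zero =>
    intro i j h
    have : j = i := Fin.ext h
    simp [this]
  | succ d ih =>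
    intro i j h
    have h1 := ih i ⟨i + d, by have := j.2; omega⟩ rfl
    have h2 : x j < x ⟨i + d, by have := j.2; omega⟩ := hx (by rw [Fin.lt_def]; simp; omega)
    omega

lemma exists_pos {m n : ℕ} {x : Fin m → ℕ} (hx : StrictAnti x) (h1 : ∀ b, 1 ≤ x b)
    (h2 : ∀ b, x b ≤ m + n) : ∃ mu : L m n, pos mu = x := by
  have hlo : ∀ b : Fin m, m - b ≤ x b := by
    intro b
    have hb := b.2
    have := anti_gap hx (m - 1 - b) b ⟨m - 1, by omega⟩ (by simp; omega)
    have := h1 ⟨m - 1, by omega⟩
    omega
  have hhi : ∀ b : Fin m, x b + b ≤ m + n := by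
    intro b
    have hb := b.2
    have := anti_gap hx b ⟨0, by omega⟩ b (by simp)
    have := h2 ⟨0, by omega⟩
    omega
  refine ⟨⟨fun b => ⟨x b - (m - b), by have := hhi b; have := b.2; omega⟩, ?_⟩, ?_⟩
  · intro i j hij
    have h3 : (i : ℕ) ≤ j := hij
    have := anti_gap hx (j - i) i j (by omega)
    have := j.2
    rw [Fin.le_def]
    simp only
    omega
  · funext b
    have := hlo b
    simp only [pos]
    omega

lemma G_zero {z : ℂ} {m n : ℕ} (hz : IsPrimitiveRoot z (2 * (m + n + 1))) (k : Fin m → ℕ)
    {x : Fin m → ℕ} (hx : Antitone x) (h2 : ∀ b, x b ≤ m + n + 1)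
    (hno : ∀ mu : L m n, pos mu ≠ x) : G z k x = 0 := by
  by_contra hG
  have hinj : Function.Injective x := by
    intro i j hij
    by_contra hne
    exact hG (det_zero_of_column_eq hne (fun a => by simp [hij]))
  have h0 : ∀ b, x b ≠ 0 := by
    intro b hb
    exact hG (det_eq_zero_of_column_eq_zero b (fun a => by simp [hb, uu]))
  have hM : ∀ b, x b ≠ m + n + 1 := by
    intro b hb
    refine hG (det_eq_zero_of_column_eq_zero b (fun a => ?_))
    have h3 := pow_M (by omega) hz
    have h4 := pow_M (by omega) hz.inv
    simp only [of_apply, hb, uu]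
    rw [mul_comm, pow_mul, pow_mul, h3, h4, sub_self]
  obtain ⟨mu, hmu⟩ := exists_pos (n := n) (hx.strictAnti_of_injective hinj)
    (fun b => by have := h0 b; omega) (fun b => by have := hM b; have := h2 b; omega)
  exact hno mu hmu

lemma sum_ind {z : ℂ} {m n : ℕ} (hz : IsPrimitiveRoot z (2 * (m + n + 1))) (k : Fin m → ℕ)
    {x : Fin m → ℕ} (hx : Antitone x) (h2 : ∀ b, x b ≤ m + n + 1) :
    ∑ mu : L m n, (if pos mu = x then (1 : ℂ) else 0) * G z k (pos mu) = G z k x := by
  by_cases h : ∃ mu : L m n, pos mu = x
  · obtain ⟨mu, hmu⟩ := h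
    rw [Finset.sum_eq_single mu]
    · simp [hmu]
    · intro nu _ hne
      rw [if_neg (fun h => hne (pos_inj (h.trans hmu.symm))), zero_mul]
    · simp
  · push Not at h
    rw [G_zero hz k hx h2 h]
    apply Finset.sum_eq_zero
    intro mu _
    rw [if_neg (h mu), zero_mul]

lemma addBox_iff {m n : ℕ} (lam mu : L m n) :
    AddBox lam mu ↔ ∃ b, pos mu = Function.update (pos lam) b (pos lam b + 1) := by
  constructor
  · rintro ⟨i, h1, h2⟩
    refine ⟨i, funext fun j => ?_⟩
    by_cases hj : j = i
    · subst hj; simp only [Function.update_self, pos]; omega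
    · rw [Function.update_of_ne hj]; simp only [pos, h2 j hj]
  · rintro ⟨i, h⟩
    refine ⟨i, ?_, fun j hj => ?_⟩
    · have := congrFun h i
      simp only [Function.update_self, pos] at this; omega
    · have := congrFun h j
      rw [Function.update_of_ne hj] at this
      simp only [pos] at this
      exact Fin.ext (by omega)

lemma addBox_iff' {m n : ℕ} (lam mu : L m n) :
    AddBox mu lam ↔ ∃ b, pos mu = Function.update (pos lam) b (pos lam b - 1) := by
  constructor
  · rintro ⟨i, h1, h2⟩
    refine ⟨i, funext fun j => ?_⟩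
    by_cases hj : j = i
    · subst hj; simp only [Function.update_self, pos]; omega
    · rw [Function.update_of_ne hj]; simp only [pos, h2 j hj]
  · rintro ⟨i, h⟩
    refine ⟨i, ?_, fun j hj => ?_⟩
    · have := congrFun h i
      have := i.2
      simp only [Function.update_self, pos] at *; omega
    · have := congrFun h j
      rw [Function.update_of_ne hj] at this
      simp only [pos] at this
      exact Fin.ext (by omega)

lemma A_eq {m n : ℕ} (lam mu : L m n) : ((A m n lam mu : ℝ) : ℂ) =
    ∑ b, ((if pos mu = Function.update (pos lam) b (pos lam b + 1) then (1 : ℂ) else 0) +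
      (if pos mu = Function.update (pos lam) b (pos lam b - 1) then (1 : ℂ) else 0)) := by
  have key : ∀ (i b : Fin m) (s t : ℕ), s ≠ pos lam i →
      Function.update (pos lam) i s = Function.update (pos lam) b t → b = i ∧ s = t := by
    intro i b s t hs h
    have h1 := congrFun h i
    rw [Function.update_self] at h1
    by_cases hb : i = b
    · subst hb; rw [Function.update_self] at h1; exact ⟨rfl, h1⟩
    · rw [Function.update_of_ne hb] at h1; exact absurd h1 hs
  unfold A
  rw [addBox_iff, addBox_iff']
  split_ifs with h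
  · rcases h with ⟨i, h⟩ | ⟨i, h⟩
    · rw [Finset.sum_eq_single i, if_pos h, if_neg]
      · simp
      · intro h'
        have := (key i i _ _ (by omega) (h.symm.trans h')).2
        omega
      · intro b _ hb
        rw [if_neg, if_neg, add_zero]
        · intro h'; exact hb (key i b _ _ (by omega) (h.symm.trans h')).1
        · intro h'; exact hb (key i b _ _ (by omega) (h.symm.trans h')).1
      · simp
    · have hp := pos_ge lam i
      rw [Finset.sum_eq_single i, if_pos h, if_neg]
      · simp
      · intro h'
        have := (key i i _ _ (by omega) (h.symm.trans h')).2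
        omega
      · intro b _ hb
        rw [if_neg, if_neg, add_zero]
        · intro h'; exact hb (key i b _ _ (by omega) (h.symm.trans h')).1
        · intro h'; exact hb (key i b _ _ (by omega) (h.symm.trans h')).1
      · simp
  · push Not at h
    rw [Finset.sum_eq_zero]
    · simp
    · intro b _
      rw [if_neg (h.1 b), if_neg (h.2 b), add_zero]

lemma eigen {z : ℂ} {m n : ℕ} (hz : IsPrimitiveRoot z (2 * (m + n + 1))) (k : Fin m → ℕ)
    (lam : L m n) : ∑ mu : L m n, ((A m n lam mu : ℝ) : ℂ) * G z k (pos mu) =
      (∑ a, dd z (k a)) * G z k (pos lam) := by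
  rw [← G_hop (hz.ne_zero (by omega)) k _ (pos_ge lam)]
  simp only [A_eq, Finset.sum_mul, add_mul]
  rw [Finset.sum_comm]
  apply Finset.sum_congr rfl
  intro b _
  have ha := pos_anti lam
  rw [Finset.sum_add_distrib, sum_ind hz, sum_ind hz]
  · intro i j hij
    rcases eq_or_lt_of_le hij with rfl | hlt
    · exact le_rfl
    · have := ha hlt
      simp only [Function.update_apply]
      split_ifs with h1 h2 h2
      · omega
      · subst h1; omega
      · subst h2; omega
      · omega
  · intro i
    have := pos_le lam i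
    have := pos_le lam b
    simp only [Function.update_apply]
    split_ifs <;> omega
  · intro i j hij
    rcases eq_or_lt_of_le hij with rfl | hlt
    · exact le_rfl
    · have := ha hlt
      simp only [Function.update_apply]
      split_ifs with h1 h2 h2
      · omega
      · subst h1; omega
      · subst h2; omega
      · omega
  · intro i
    have := pos_le lam i
    have := pos_le lam b
    simp only [Function.update_apply]
    split_ifs <;> omega

lemma G_ne {z : ℂ} {M m : ℕ} (hz : IsPrimitiveRoot z (2 * M)) (hM : 0 < M) {k x : Fin m → ℕ}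
    (hk : Function.Injective k) (hk1 : ∀ a, 1 ≤ k a ∧ k a < M) (hx : Function.Injective x)
    (hx1 : ∀ b, 1 ≤ x b ∧ x b ≤ m) : G z k x ≠ 0 := by
  intro hG
  obtain ⟨c, hc0, hc⟩ := Matrix.exists_mulVec_eq_zero_iff.mpr hG
  have hz0 : z ≠ 0 := hz.ne_zero (by omega)
  set Q : ℂ[X] := ∑ b, C (c b) * (X ^ (m + x b) - X ^ (m - x b)) with hQ
  have hev : ∀ w : ℂ, w ≠ 0 → Q.eval w = w ^ m * ∑ b, (w ^ x b - w⁻¹ ^ x b) * c b := by
    intro w hw
    rw [hQ, eval_finset_sum, Finset.mul_sum]
    apply Finset.sum_congr rfl
    intro b _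
    simp only [eval_mul, eval_C, eval_sub, eval_pow, eval_X]
    have h1 : w ^ m = w ^ (m - x b) * w ^ x b := by
      rw [← pow_add, Nat.sub_add_cancel (hx1 b).2]
    have h2 : w ^ x b * w⁻¹ ^ x b = 1 := by rw [← mul_pow, mul_inv_cancel₀ hw, one_pow]
    rw [pow_add]
    linear_combination (c b * w ^ (m - x b)) * h2 + (c b * w⁻¹ ^ x b) * h1
  have hrow : ∀ a, ∑ b, ((z ^ k a) ^ x b - (z ^ k a)⁻¹ ^ x b) * c b = 0 := by
    intro a
    have := congrFun hc a
    simp only [mulVec, dotProduct, of_apply, uu, Pi.zero_apply] at this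
    rw [← this]
    apply Finset.sum_congr rfl
    intro b _
    rw [← inv_pow, ← pow_mul, ← pow_mul]
  set e : Option (Fin m ⊕ Fin m) → ℕ := fun o => match o with
    | none => 0
    | some (Sum.inl a) => k a
    | some (Sum.inr a) => 2 * M - k a with he
  have he1 : ∀ o, e o < 2 * M := by
    rintro (_ | a | a)
    · simp [he, hM]
    · have := hk1 a; simp only [he]; omega
    · have := hk1 a; simp only [he]; omega
  have he2 : Function.Injective e := by
    rintro (_ | a | a) (_ | b | b) h <;> simp only [he] at h
    · rfl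
    · have := hk1 b; omega
    · have := hk1 b; omega
    · have := hk1 a; omega
    · rw [hk h]
    · have := hk1 a; have := hk1 b; omega
    · have := hk1 a; omega
    · have := hk1 a; have := hk1 b; omega
    · have := hk1 a; have := hk1 b
      rw [hk (by omega : k a = k b)]
  have hQ0 : Q = 0 := by
    apply eq_zero_of_natDegree_lt_card_of_eval_eq_zero Q (f := fun o => z ^ e o)
    · intro o o' h
      exact he2 (hz.pow_inj (he1 o) (he1 o') h)
    · rintro (_ | a | a)
      · simp only [he, pow_zero]
        rw [hev 1 one_ne_zero]; simp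
      · simp only [he]
        rw [hev _ (pow_ne_zero _ hz0), hrow, mul_zero]
      · simp only [he]
        have := hk1 a
        rw [← inv_pow_eq hM hz (by omega), inv_pow, hev _ (inv_ne_zero (pow_ne_zero _ hz0)),
          inv_inv]
        have h3 := hrow a
        have h4 : ∑ b, ((z ^ k a)⁻¹ ^ x b - (z ^ k a) ^ x b) * c b =
            - ∑ b, ((z ^ k a) ^ x b - (z ^ k a)⁻¹ ^ x b) * c b := by
          rw [← Finset.sum_neg_distrib]
          apply Finset.sum_congr rfl
          intro b _; ring
        rw [h4, h3]; simp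
    · have : Q.natDegree ≤ 2 * m := by
        rw [hQ]
        apply natDegree_sum_le_of_forall_le
        intro b _
        have := hx1 b
        refine (natDegree_C_mul_le _ _).trans ((natDegree_sub_le _ _).trans ?_)
        simp only [natDegree_X_pow]
        omega
      simp only [Fintype.card_option, Fintype.card_sum, Fintype.card_fin]
      omega
  apply hc0
  funext b
  have h5 := congrArg (fun q : ℂ[X] => q.coeff (m + x b)) hQ0
  simp only [hQ, finset_sum_coeff, coeff_C_mul, coeff_sub, coeff_X_pow, coeff_zero] at h5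
  rw [Finset.sum_eq_single b] at h5
  · have := hx1 b
    rw [if_pos rfl, if_neg (by omega)] at h5
    simpa using h5
  · intro b' _ hb'
    have := hx1 b
    have h6 : x b ≠ x b' := fun h => hb' (hx h).symm
    rw [if_neg (by omega), if_neg (by omega)]
    simp
  · simp

lemma det_expand {m N : ℕ} (C : Matrix (Fin m) (Fin N) ℂ) (B : Matrix (Fin N) (Fin m) ℂ) :
    (C * B).det = ∑ κ : Fin m → Fin N, (∏ a, C a (κ a)) * (Matrix.of fun a b => B (κ a) b).det := by
  have h : ∀ D : Matrix (Fin m) (Fin m) ℂ,
      D.det = ∑ σ : Equiv.Perm (Fin m), ((Equiv.Perm.sign σ : ℤ) : ℂ) * ∏ a, D a (σ a) := by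
    intro D
    rw [← det_transpose, det_apply']
    rfl
  simp only [h, mul_apply, of_apply, Finset.prod_univ_sum, Fintype.piFinset_univ, Finset.mul_sum]
  rw [Finset.sum_comm]
  apply Finset.sum_congr rfl
  intro κ _
  apply Finset.sum_congr rfl
  intro σ _
  rw [Finset.prod_mul_distrib]
  ring

lemma det_delta {m n : ℕ} (lam mu : L m n) :
    (Matrix.of fun a b => if pos mu a = pos lam b then (1 : ℂ) else 0).det =
      if lam = mu then 1 else 0 := by
  split_ifs with h
  · subst h
    have : (Matrix.of fun a b => if pos lam a = pos lam b then (1 : ℂ) else 0) = 1 := by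
      ext a b
      simp only [of_apply, one_apply, (pos_anti lam).injective.eq_iff]
    rw [this, det_one]
  · rw [det_apply']
    apply Finset.sum_eq_zero
    intro σ _
    by_contra hne
    have h1 := right_ne_zero_of_mul hne
    rw [Finset.prod_ne_zero_iff] at h1
    have h2 : ∀ b, pos mu (σ b) = pos lam b := by
      intro b
      have := h1 b (mem_univ b)
      by_contra h3
      simp [h3] at this
    have h3 : StrictMono σ := by
      intro i j hij
      have := pos_anti lam hij
      rw [← h2, ← h2] at this
      exact (pos_anti mu).lt_iff_gt.mp this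
    apply h
    apply pos_inj
    funext b
    have h4 : σ b = b := le_antisymm h3.apply_le h3.le_apply
    rw [← h2, h4]

theorem det_iff {z : ℂ} {m n : ℕ} (hz : IsPrimitiveRoot z (2 * (m + n + 1))) :
    (A m n).det = 0 ↔ Van z (m + n + 1) m := by
  classical
  have hmap : (A m n).det = 0 ↔ ((A m n).map (fun r : ℝ => (r : ℂ))).det = 0 := by
    have := (Complex.ofRealHom).map_det (A m n)
    rw [← Complex.ofReal_eq_zero]
    exact this ▸ Iff.rfl
  rw [hmap]
  constructor
  · intro h
    by_contra hV
    obtain ⟨w, hw0, hw⟩ := Matrix.exists_vecMul_eq_zero_iff.mpr h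
    have h1 : ∀ κ : Fin m → Fin (m + n),
        ∑ lam : L m n, w lam * G z (fun a => κ a + 1) (pos lam) = 0 := by
      intro κ
      by_cases hκ : Function.Injective κ
      · have hs : ∑ a, dd z (κ a + 1) ≠ 0 := by
          intro hs
          apply hV
          have hi : Function.Injective (fun a => (κ a : ℕ) + 1) := by
            intro a b hab
            exact hκ (Fin.ext (by simpa using hab))
          refine ⟨univ.image (fun a => (κ a : ℕ) + 1), ?_, ?_, ?_⟩
          · intro j hj
            obtain ⟨a, _, rfl⟩ := mem_image.mp hj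
            have := (κ a).2
            omega
          · rw [card_image_of_injective _ hi]; simp
          · rw [Finset.sum_image (fun a _ b _ h => hi h), hs]
        apply (mul_eq_zero.mp _).resolve_left hs
        rw [Finset.mul_sum]
        have h2 : ∀ lam : L m n, (∑ a, dd z (κ a + 1)) * (w lam * G z (fun a => κ a + 1) (pos lam))
            = ∑ mu : L m n, w lam * ((A m n lam mu : ℝ) : ℂ) * G z (fun a => κ a + 1) (pos mu) := by
          intro lam
          rw [mul_left_comm, ← eigen hz, Finset.mul_sum]
          simp only [mul_assoc]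
        simp only [h2]
        rw [Finset.sum_comm]
        apply Finset.sum_eq_zero
        intro mu _
        have := congrFun hw mu
        simp only [vecMul, dotProduct, map_apply, Pi.zero_apply] at this
        rw [← Finset.sum_mul, this, zero_mul]
      · apply Finset.sum_eq_zero
        intro lam _
        obtain ⟨a, b, hab, hne⟩ := Function.not_injective_iff.mp hκ
        rw [G, det_zero_of_row_eq hne (by funext c; simp [hab]), mul_zero]
    set U : Matrix (Fin (m + n)) (Fin (m + n)) ℂ := Matrix.of fun a b => uu z (a + 1) (b + 1)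
      with hU
    have hUdet : U.det ≠ 0 := by
      apply G_ne (k := fun a : Fin (m + n) => (a : ℕ) + 1) (x := fun a : Fin (m + n) => (a : ℕ) + 1)
        hz (by omega)
      · intro a b hab; exact Fin.ext (by simpa using hab)
      · intro a; have := a.2; omega
      · intro a b hab; exact Fin.ext (by simpa using hab)
      · intro a; have := a.2; omega
    have hVU : U⁻¹ * U = 1 := Matrix.nonsing_inv_mul U (Ne.isUnit hUdet)
    set pf : L m n → Fin m → Fin (m + n) := fun lam b =>
      ⟨pos lam b - 1, by have := pos_le lam b; have := pos_ge lam b; omega⟩ with hpf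
    apply hw0
    funext mu
    have h3 : ∀ lam : L m n, (if lam = mu then (1 : ℂ) else 0) =
        ∑ κ : Fin m → Fin (m + n), (∏ a, U⁻¹ (pf mu a) (κ a)) *
          G z (fun a => κ a + 1) (pos lam) := by
      intro lam
      have h4 := det_expand (Matrix.of fun a k => U⁻¹ (pf mu a) k)
        (Matrix.of fun k b => U k (pf lam b))
      rw [← det_delta]
      convert h4 using 2
      · ext a b
        have h5 := congrFun (congrFun hVU (pf mu a)) (pf lam b)
        simp only [mul_apply, of_apply] at h5 ⊢
        rw [h5, one_apply]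
        have := pos_ge lam b
        have := pos_ge mu a
        congr 1
        simp only [hpf, Fin.mk.injEq, eq_iff_iff]
        omega
      · rename_i κ _
        simp only [of_apply, G, hU, hpf]
        congr 2
        ext a b
        simp only [of_apply]
        rw [Nat.sub_add_cancel (pos_ge lam b)]
    have h6 : w mu = ∑ lam : L m n, w lam * (if lam = mu then (1 : ℂ) else 0) := by simp
    rw [h6]
    simp only [h3, Finset.mul_sum, Pi.zero_apply]
    rw [Finset.sum_comm]
    apply Finset.sum_eq_zero
    intro κ _
    simp only [mul_left_comm (w _)]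
    rw [← Finset.mul_sum, h1, mul_zero]
  · rintro ⟨S, h1, h2, h3⟩
    set k : Fin m → ℕ := fun a => S.orderEmbOfFin h2 a with hk
    have hki : Function.Injective k := (S.orderEmbOfFin h2).injective
    have hkm : ∀ a, k a ∈ S := fun a => S.orderEmbOfFin_mem h2 a
    have hs : ∑ a, dd z (k a) = 0 := by
      rw [← h3, ← Finset.sum_image (s := univ) (g := k) (f := dd z) (fun a _ b _ h => hki h)]
      congr 1
      apply Finset.eq_of_subset_of_card_le
      · intro j hj
        obtain ⟨a, _, rfl⟩ := mem_image.mp hj
        exact hkm a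
      · rw [card_image_of_injective _ hki]; simp [h2]
    apply Matrix.exists_mulVec_eq_zero_iff.mp
    refine ⟨fun lam => G z k (pos lam), ?_, ?_⟩
    · intro h0
      set l0 : L m n := ⟨fun _ => 0, fun _ _ _ => le_rfl⟩ with hl0
      refine G_ne hz (by omega) hki (fun a => h1 _ (hkm a)) (pos_anti l0).injective ?_
        (congrFun h0 l0)
      intro b
      refine ⟨pos_ge _ _, ?_⟩
      simp [pos, hl0]
    · funext lam
      have := eigen hz k lam
      rw [hs, zero_mul] at this
      exact this

theorem main (m n : ℕ) :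
    (A m n).det ≠ 0 ↔ Odd m ∧ Odd n ∧ min m n < (m + n + 1).minFac := by
  have hz := Complex.isPrimitiveRoot_exp (2 * (m + n + 1)) (by omega)
  rw [Ne, det_iff hz, van_iff hz]

end Pool.Agent.H.MP_34e3ac_co
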